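import Mathlib
set_option linter.style.longLine false
namespace Pool.Agent.H.MP_898cae_lc
open Set Cardinal MeasureTheory ProbabilityTheory

/-- the standard product measure on `2^ℕ` -/
noncomputable def lam : Measure (ℕ → Bool) := Measure.infinitePi fun _ => uniformOn (Set.univ : Set Bool)

/-- the atom of `𝒜_n` containing `u` -/
def At (n : ℕ) (u : ℕ → Bool) : Set (ℕ → Bool) := {x | ∀ i ≤ n, x i = u i}

noncomputable def phi (m : ℕ) (A : Set (ℕ → Bool)) : ℝ :=
  |lam.real (A ∩ {x | x m = false}) - lam.real (A ∩ {x | x m = true})|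

/-- a subalgebra of the Borel algebra containing the clopen sets, with property (T) -/
def PT (𝓑 : Set (Set (ℕ → Bool))) : Prop :=
  IsSetAlgebra 𝓑 ∧ (∀ A ∈ 𝓑, @MeasurableSet _ (borel _) A) ∧ (∀ A, IsClopen A → A ∈ 𝓑) ∧
    ∀ F : Set (Set (ℕ → Bool)), F.Finite → F ⊆ 𝓑 → ∀ ε : ℝ, 0 < ε → ∃ n : ℕ, 0 < n ∧ ∀ u, ∀ A ∈ F,
      (lam.real (A ∩ At n u) ≤ ε * lam.real (At n u) / n ∨ lam.real (At n u \ A) ≤ ε * lam.real (At n u) / n) ∧
        ∀ m : ℕ, n < m → phi m (A ∩ At n u) ≤ ε * lam.real (At n u) / m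

/-- `prop_(T)` -/
noncomputable def propT : Cardinal.{0} := sInf {c | ∃ 𝓐, Maximal PT 𝓐 ∧ #𝓐 = c}

lemma cyl (s : Finset ℕ) (u : ℕ → Bool) : lam {x | ∀ i ∈ s, x i = u i} = 2⁻¹ ^ s.card := by
  have := Measure.infinitePi_pi (fun _ : ℕ => uniformOn (Set.univ : Set Bool)) (s := s) (t := fun i => {u i})
    fun _ _ => measurableSet_singleton _
  simp only [uniformOn_univ, Measure.count_singleton, Fintype.card_bool, Finset.prod_const] at this
  simpa [lam, Set.pi] using this

lemma null (u : ℕ → Bool) : lam {u} = 0 := by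
  refine le_antisymm (ge_of_tendsto' (ENNReal.tendsto_pow_atTop_nhds_zero_of_lt_one ENNReal.one_half_lt_one) fun n => ?_)
    zero_le
  rw [← Finset.card_range n, ← cyl _ u]
  exact measure_mono fun x h i _ => h ▸ rfl

lemma clopen_pt : PT {A | IsClopen A} := by
  refine ⟨⟨isClopen_empty, fun _ h => h.compl, fun _ _ h k => h.union k⟩,
    fun A h => MeasurableSpace.measurableSet_generateFrom h.isOpen, fun _ h => h, fun F f1 f2 ε e => ?_⟩
  have nb : ∀ n u, At n u ∈ nhds u := fun n u => by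
    have : At n u = ⋂ i ∈ Iic n, {x | x i = u i} := by ext; simp [At]
    rw [this, Filter.biInter_mem (finite_Iic n)]
    exact fun i _ => (continuous_apply i).continuousAt.preimage_mem_nhds ((isOpen_discrete {u i}).mem_nhds rfl)
  have : ∀ A ∈ F, ∀ᶠ n in Filter.atTop, ∀ u, ∀ x ∈ At n u, x ∈ A ↔ u ∈ A := fun A hA => by
    have mono : Monotone fun n => {u | ∀ x ∈ At n u, x ∈ A ↔ u ∈ A} := fun n m l u h x k => h x fun i j => k i (j.trans l)
    obtain ⟨n, hn⟩ := isCompact_univ.elim_directed_cover (fun n => {u | ∀ x ∈ At n u, x ∈ A ↔ u ∈ A})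
      (fun n => isOpen_iff_mem_nhds.2 fun u h => Filter.mem_of_superset (nb n u) fun v k x l =>
        (h x fun i j => (l i j).trans (k i j)).trans (h v k).symm) (fun u _ => by
        have : {x | x ∈ A ↔ u ∈ A} ∈ nhds u := by
          by_cases c : u ∈ A
          · simpa [c] using (f2 hA).isOpen.mem_nhds c
          · exact Filter.mem_of_superset ((f2 hA).compl.isOpen.mem_nhds c) fun x h => iff_of_false h c
        rw [nhds_pi, Filter.mem_pi] at this
        obtain ⟨I, i1, t, i2, i3⟩ := this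
        obtain ⟨n, hn⟩ := i1.bddAbove
        exact mem_iUnion.2 ⟨n, fun x k => i3 fun i j => k i (hn j) ▸ mem_of_mem_nhds (i2 i)⟩) mono.directed_le
    exact (Filter.eventually_ge_atTop n).mono fun m l u => mono l (hn (mem_univ u))
  obtain ⟨n, n1, n2⟩ := ((Filter.eventually_gt_atTop 0).and ((Filter.eventually_all_finite f1).2 this)).exists
  refine ⟨n, n1, fun u A hA => ?_⟩
  by_cases c : u ∈ A
  · have s : At n u ⊆ A := fun x h => (n2 A hA u x h).2 c
    refine ⟨Or.inr (by rw [sdiff_eq_empty.2 s]; simp; positivity), fun m l => ?_⟩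
    have : ∀ b, lam (At n u ∩ {x | x m = b}) = 2⁻¹ ^ (n + 2) := fun b => by
      have := cyl (insert m (Finset.range (n + 1))) (Function.update u m b)
      rw [Finset.card_insert_of_notMem (by simp; omega), Finset.card_range] at this
      rw [← this]
      congr 1
      ext x
      simp only [At, mem_inter_iff, mem_ofPred_eq, Finset.forall_mem_insert, Function.update_self, Finset.mem_range,
        Nat.lt_succ_iff]
      rw [and_comm]
      exact and_congr_right fun _ => forall₂_congr fun i j => by rw [Function.update_of_ne (by omega)]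
    rw [inter_eq_right.2 s, phi, Measure.real, Measure.real, this, this]; simp; positivity
  · have s : A ∩ At n u = ∅ := eq_empty_of_forall_notMem fun x h => c ((n2 A hA u x h.2).1 h.1)
    rw [s]
    exact ⟨Or.inl (by simp; positivity), fun m l => by simp [phi]; positivity⟩

lemma ex : ∃ 𝓐, Maximal PT 𝓐 := by
  refine (zorn_subset_nonempty {𝓑 | PT 𝓑} (fun c c1 c2 ⟨B, hB⟩ => ⟨⋃₀ c, ⟨⟨⟨B, hB, (c1 hB).1.empty_mem⟩,
    fun _ ⟨a, i, j⟩ => ⟨a, i, (c1 i).1.compl_mem j⟩, fun s t ⟨a, i, j⟩ ⟨b, k, l⟩ => ?_⟩, fun _ ⟨a, i, j⟩ => (c1 i).2.1 _ j,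
    fun A h => ⟨B, hB, (c1 hB).2.2.1 A h⟩, fun F f1 f2 => ?_⟩, fun _ => subset_sUnion_of_mem⟩) _ clopen_pt).imp fun _ h => h.2
  · rcases c2.total i k with h | h
    exacts [⟨b, k, (c1 k).1.union_mem (h j) l⟩, ⟨a, i, (c1 i).1.union_mem j (h l)⟩]
  · obtain ⟨a, i, j⟩ := c2.directedOn.exists_mem_subset_of_finset_subset_biUnion ⟨B, hB⟩ (f := id) (s := f1.toFinset)
      (by simpa [sUnion_eq_biUnion] using f2)
    exact (c1 i).2.2.2 F f1 (by simpa using j)

lemma card {𝓐 : Set (Set (ℕ → Bool))} (h : Maximal PT 𝓐) : #𝓐 = 𝔠 := by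
  obtain ⟨a1, a2, a3, a4⟩ := h.1
  have br : borel (ℕ → Bool) = MeasurableSpace.pi := BorelSpace.measurable_eq.symm
  refine le_antisymm ((mk_le_mk_of_subset (t := {A | @MeasurableSet _ (borel _) A}) a2).trans ?_) ?_
  · rw [br, ← MeasurableSpace.generateFrom_countableGeneratingSet (α := ℕ → Bool)]
    exact MeasurableSpace.cardinal_measurableSet_le_continuum
      (MeasurableSpace.countable_countableGeneratingSet.le_aleph0.trans aleph0_le_continuum)
  have : PT {B | @MeasurableSet _ (borel _) B ∧ ∃ A ∈ 𝓐, B =ᵐ[lam] A} := by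
    refine ⟨⟨⟨@MeasurableSet.empty _ (borel _), ∅, a1.empty_mem, .rfl⟩,
      fun _ ⟨i, A, j, k⟩ => ⟨i.compl, _, a1.compl_mem j, k.compl⟩,
      fun _ _ ⟨i, A, j, k⟩ ⟨l, B, m, n⟩ => ⟨i.union l, _, a1.union_mem j m, k.union n⟩⟩, fun _ h => h.1,
      fun A h => ⟨a2 A (a3 A h), A, a3 A h, .rfl⟩, fun F f1 f2 ε e => ?_⟩
    choose! g g1 g2 using fun B h => (f2 (a := B) h).2
    obtain ⟨n, n1, n2⟩ := a4 (g '' F) (f1.image g) (image_subset_iff.2 g1) ε e
    refine ⟨n, n1, fun u A hA => ?_⟩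
    have k := g2 A hA
    have k' := k.inter (Filter.EventuallyEq.refl _ (At n u))
    have k2 : ∀ S, lam.real (A ∩ At n u ∩ S) = lam.real (g A ∩ At n u ∩ S) := fun S =>
      measureReal_congr (k'.inter (Filter.EventuallyEq.refl _ S))
    simp only [phi, measureReal_congr k', measureReal_congr ((Filter.EventuallyEq.refl _ (At n u)).diff k), k2]
    exact n2 u _ ⟨A, hA, rfl⟩
  have := h.2 this fun A k => ⟨a2 A k, A, k, .rfl⟩
  refine le_trans (by simp) (mk_le_of_injective (f := fun u : ℕ → Bool => (⟨{u}, this ⟨br ▸ measurableSet_singleton u,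
    ∅, a1.empty_mem, ae_eq_empty.2 (null u)⟩⟩ : 𝓐)) fun _ _ h => singleton_injective (congrArg Subtype.val h))

theorem propT_eq : propT = 𝔠 := by
  obtain ⟨𝓐, a, b⟩ := csInf_mem (s := {c | ∃ 𝓐, Maximal PT 𝓐 ∧ #𝓐 = c}) (ex.elim fun 𝓐 h => ⟨_, 𝓐, h, rfl⟩)
  exact b.symm.trans (card a)

end Pool.Agent.H.MP_898cae_lc
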